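import Mathlib

/-!
# Weakly Lindelof spaces of cardinality less than `𝔡`

We construct in ZFC a zero-dimensional Hausdorff weakly Lindelof space of cardinality `ℵ₁` which is
not weakly Menger.  It follows that each of the three statements (a), (b), (c) of the problem is
equivalent to `𝔡 = ℵ₁`: if `𝔡 = ℵ₁` then the spaces in question are countable, and if `𝔡 > ℵ₁` then
the example refutes all three.

The example.  Let `X` be a set of size `ℵ₁` and let `σ ξ` (`ξ ∈ X`) list the finitely supported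
functions `X → ω` in such a way that each of them is listed uncountably often.  Put
`t ξ ξ = ∞` and `t ξ β = σ ξ β` for `β ≠ ξ`.  The basic open sets are
`{ξ : s ≤ t ξ ≤ i}` where `s : X → ω` has finite support and `i : X → ω ∪ {∞}` takes values `≤ n`
only finitely often, for every `n`.

* Not weakly Menger: the sets `{ξ : t ξ α > n}` (`α ∈ X`) cover `X`; if finitely many `α ∈ F n` are
  selected for every `n` put `i α = min {n : α ∈ F n}`; then `{ξ : t ξ ≤ i}` is a nonempty open set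
  which misses all the selected sets.
* Weakly Lindelof: a closing off argument.
-/

namespace Pool.Agent.Results.MP_ed8104_gt.IffDominatingAlephOne

open Set Filter Topology Cardinal

/-- `U` is an open cover of `X`. -/
def IsOpenCover (X : Type*) [TopologicalSpace X] (U : Set (Set X)) : Prop :=
  (∀ u ∈ U, IsOpen u) ∧ ⋃₀ U = Set.univ

/-- `V` is a selection of finite subfamilies from the sequence `U`. -/
def IsSelection {X : Type*} (U V : ℕ → Set (Set X)) : Prop :=
  ∀ n, V n ⊆ U n ∧ (V n).Finite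

/-- Weakly Lindelof: every open cover has a countable subfamily with dense union. -/
def WeaklyLindelof (X : Type*) [TopologicalSpace X] : Prop :=
  ∀ U : Set (Set X), IsOpenCover X U → ∃ V ⊆ U, V.Countable ∧ Dense (⋃₀ V)

/-- Weakly Menger. -/
def WeaklyMenger (X : Type*) [TopologicalSpace X] : Prop :=
  ∀ U : ℕ → Set (Set X), (∀ n, IsOpenCover X (U n)) →
    ∃ V : ℕ → Set (Set X), IsSelection U V ∧ Dense (⋃ n, ⋃₀ V n)

/-- Weakly Scheepers in the sense of Sakai. -/
def WeaklyScheepers (X : Type*) [TopologicalSpace X] : Prop :=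
  ∀ U : ℕ → Set (Set X), (∀ n, IsOpenCover X (U n)) →
    ∃ V : ℕ → Set (Set X), IsSelection U V ∧
      ∀ 𝓕 : Set (Set X), 𝓕.Finite → (∀ u ∈ 𝓕, IsOpen u ∧ u.Nonempty) →
        {n | ∀ u ∈ 𝓕, (u ∩ ⋃₀ V n).Nonempty}.Infinite

/-- Weakly Scheepers in the sense of Kocinac. -/
def WeaklyScheepersK (X : Type*) [TopologicalSpace X] : Prop :=
  ∀ U : ℕ → Set (Set X), (∀ n, IsOpenCover X (U n)) →
    ∃ Y : Set X, Dense Y ∧ ∃ V : ℕ → Set (Set X), IsSelection U V ∧
      ∀ F : Set X, F ⊆ Y → F.Finite → {n | F ⊆ ⋃₀ V n}.Infinite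

/-- A dominating family of functions. -/
def IsDominating (D : Set (ℕ → ℕ)) : Prop :=
  ∀ g : ℕ → ℕ, ∃ f ∈ D, ∀ᶠ n in atTop, g n ≤ f n

/-- The dominating number `𝔡`. -/
noncomputable def dominatingNumber : Cardinal.{0} :=
  sInf {c | ∃ D : Set (ℕ → ℕ), IsDominating D ∧ #D = c}

/-! ### General facts -/

lemma WeaklyScheepersK.weaklyScheepers {X : Type*} [TopologicalSpace X]
    (h : WeaklyScheepersK X) : WeaklyScheepers X := by
  intro U hU
  obtain ⟨Y, hY, V, hV, hcap⟩ := h U hU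
  refine ⟨V, hV, fun 𝓕 h𝓕 hopen => ?_⟩
  have h1 : ∀ u : Set X, u ∈ 𝓕 → ∃ y, y ∈ u ∧ y ∈ Y := fun u hu =>
    hY.inter_open_nonempty u (hopen u hu).1 (hopen u hu).2
  rcases isEmpty_or_nonempty X with hX | hX
  · have h2 : 𝓕 = ∅ := by
      rw [Set.eq_empty_iff_forall_notMem]
      intro u hu
      exact hX.elim (hopen u hu).2.some
    subst h2
    convert Set.infinite_univ (α := ℕ)
    ext n
    simp
  · choose! y hy hyY using h1
    refine (hcap (y '' 𝓕) ?_ (h𝓕.image _)).mono ?_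
    · rintro _ ⟨u, hu, rfl⟩
      exact hyY u hu
    · intro n hn u hu
      exact ⟨y u, hy u hu, hn ⟨u, hu, rfl⟩⟩

lemma WeaklyScheepers.weaklyMenger {X : Type*} [TopologicalSpace X]
    (h : WeaklyScheepers X) : WeaklyMenger X := by
  intro U hU
  obtain ⟨V, hV, hcap⟩ := h U hU
  refine ⟨V, hV, ?_⟩
  rw [dense_iff_inter_open]
  intro O hO hne
  obtain ⟨n, hn⟩ := (hcap {O} (Set.finite_singleton O) (by
    rintro u rfl
    exact ⟨hO, hne⟩)).nonempty
  obtain ⟨x, hxO, hx⟩ := hn O rfl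
  exact ⟨x, hxO, Set.mem_iUnion.2 ⟨n, hx⟩⟩

lemma weaklyScheepersK_of_countable (X : Type*) [TopologicalSpace X] [Countable X] :
    WeaklyScheepersK X := by
  intro U hU
  obtain ⟨e, he⟩ := exists_injective_nat X
  have h1 : ∀ n (x : X), ∃ G ∈ U n, x ∈ G := by
    intro n x
    have : x ∈ ⋃₀ U n := by
      rw [(hU n).2]
      trivial
    exact this
  choose G hG hx using h1
  refine ⟨Set.univ, dense_univ, fun n => G n '' {x | e x ≤ n}, fun n => ⟨?_, ?_⟩, ?_⟩
  · rintro _ ⟨x, _, rfl⟩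
    exact hG n x
  · refine Set.Finite.image _ ?_
    exact (Set.finite_le_nat n).preimage he.injOn
  · intro F _ hF
    obtain ⟨B, hB⟩ := (hF.image e).bddAbove
    refine (Set.Ici_infinite B).mono ?_
    intro n hn x hxF
    refine ⟨G n x, ⟨x, ?_, rfl⟩, hx n x⟩
    exact (hB ⟨x, hxF, rfl⟩).trans hn

lemma not_isDominating_of_countable {D : Set (ℕ → ℕ)} (hD : D.Countable) : ¬ IsDominating D := by
  intro h
  have hne : D.Nonempty := by
    obtain ⟨f, hf, _⟩ := h fun _ => 0
    exact ⟨f, hf⟩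
  obtain ⟨F, rfl⟩ := hD.exists_eq_range hne
  obtain ⟨f, ⟨k, rfl⟩, hk⟩ := h fun n => (∑ j ∈ Finset.range (n + 1), F j n) + 1
  rw [Filter.eventually_atTop] at hk
  obtain ⟨N, hN⟩ := hk
  have h1 := hN (max N k) (le_max_left _ _)
  have h2 : F k (max N k) ≤ ∑ j ∈ Finset.range (max N k + 1), F j (max N k) :=
    Finset.single_le_sum (f := fun j => F j (max N k)) (fun _ _ => Nat.zero_le _)
      (Finset.mem_range.2 (Nat.lt_succ_of_le (le_max_right _ _)))
  omega

lemma aleph_one_le_dominatingNumber : ℵ₁ ≤ dominatingNumber := by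
  have hne : {c | ∃ D : Set (ℕ → ℕ), IsDominating D ∧ #D = c}.Nonempty :=
    ⟨_, Set.univ, fun g => ⟨g, trivial, Eventually.of_forall fun _ => le_rfl⟩, rfl⟩
  obtain ⟨D, hD, hc⟩ := csInf_mem hne
  unfold dominatingNumber
  rw [← hc]
  by_contra hlt
  push Not at hlt
  have h1 : #D ≤ ℵ₀ := by
    rw [← Order.lt_succ_iff, Cardinal.succ_aleph0]
    exact hlt
  exact not_isDominating_of_countable (Cardinal.le_aleph0_iff_set_countable.1 h1) hD

/-! ### The example -/

/-- The underlying set, of cardinality `ℵ₁`. -/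
def Pt : Type := (ℵ₁ : Cardinal.{0}).out

lemma mk_Pt : #Pt = ℵ₁ := Cardinal.mk_out _

lemma not_countable_Pt : ¬ (Set.univ : Set Pt).Countable := by
  rw [← Cardinal.le_aleph0_iff_set_countable, Cardinal.mk_univ, mk_Pt, not_le]
  exact Cardinal.aleph0_lt_aleph_one

instance : Infinite Pt := by
  rw [← Set.infinite_univ_iff]
  intro h
  exact not_countable_Pt h.countable

/-- Finitely supported functions can be listed with every one of them repeated uncountably often. -/
lemma exists_listing : ∃ σ : Pt → (Pt →₀ ℕ), ∀ s, ¬ {ξ | σ ξ = s}.Countable := by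
  have h1 : #((Pt →₀ ℕ) × Pt) = #Pt := by
    have h2 : #(Pt →₀ ℕ) = #Pt := by
      rw [Cardinal.mk_finsupp_nat]
      exact max_eq_left (Cardinal.aleph0_le_mk Pt)
    rw [Cardinal.mk_prod, Cardinal.lift_id, Cardinal.lift_id, h2]
    exact Cardinal.mul_eq_self (Cardinal.aleph0_le_mk Pt)
  obtain ⟨e⟩ := Cardinal.eq.1 h1
  refine ⟨fun ξ => (e.symm ξ).1, fun s hs => not_countable_Pt ?_⟩
  have h3 : ((fun ξ => (e.symm ξ).2) '' {ξ | (e.symm ξ).1 = s}) = Set.univ := by
    rw [Set.eq_univ_iff_forall]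
    intro η
    refine ⟨e (s, η), ?_, ?_⟩
    · simp
    · simp
  rw [← h3]
  exact hs.image _

/-- The listing of the finitely supported functions. -/
noncomputable def sig : Pt → (Pt →₀ ℕ) := exists_listing.choose

lemma sig_spec (s : Pt →₀ ℕ) : ¬ {ξ | sig ξ = s}.Countable := exists_listing.choose_spec s

open Classical in
/-- The functions `t ξ`. -/
noncomputable def t (ξ β : Pt) : ℕ∞ := if β = ξ then ⊤ else (sig ξ β : ℕ∞)

lemma t_self (ξ : Pt) : t ξ ξ = ⊤ := by simp [t]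

lemma t_of_ne {ξ β : Pt} (h : β ≠ ξ) : t ξ β = (sig ξ β : ℕ∞) := by simp [t, h]

/-- Bounds which are `≤ n` only finitely often. -/
def Good (i : Pt → ℕ∞) : Prop := ∀ n : ℕ, {β | i β ≤ n}.Finite

lemma Good.top : Good fun _ => ⊤ := by
  intro n
  convert Set.finite_empty (α := Pt)
  ext β
  simp

lemma Good.inf {i j : Pt → ℕ∞} (hi : Good i) (hj : Good j) : Good fun β => i β ⊓ j β := by
  intro n
  refine ((hi n).union (hj n)).subset ?_
  intro β hβ
  have h : i β ≤ n ∨ j β ≤ n := by simpa using hβ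
  exact h

lemma Good.countable {i : Pt → ℕ∞} (hi : Good i) : {β | i β ≠ ⊤}.Countable := by
  have : {β | i β ≠ ⊤} ⊆ ⋃ n : ℕ, {β | i β ≤ n} := by
    intro β hβ
    obtain ⟨n, hn⟩ := ENat.ne_top_iff_exists.1 hβ
    exact Set.mem_iUnion.2 ⟨n, hn.symm.le⟩
  exact (Set.countable_iUnion fun n => (hi n).countable).mono this

/-- Basic open sets. -/
def Bas (s : Pt →₀ ℕ) (i : Pt → ℕ∞) : Set Pt := {ξ | ∀ β, (s β : ℕ∞) ≤ t ξ β ∧ t ξ β ≤ i β}

/-- The topology of the example. -/
instance topPt : TopologicalSpace Pt where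
  IsOpen G := ∀ ξ ∈ G, ∃ s i, Good i ∧ ξ ∈ Bas s i ∧ Bas s i ⊆ G
  isOpen_univ := fun ξ _ => ⟨0, fun _ => ⊤, Good.top, fun β => ⟨by simp, le_top⟩,
    Set.subset_univ _⟩
  isOpen_inter := by
    intro G G' hG hG' ξ hξ
    obtain ⟨s, i, hi, h1, h2⟩ := hG ξ hξ.1
    obtain ⟨s', i', hi', h1', h2'⟩ := hG' ξ hξ.2
    refine ⟨s ⊔ s', fun β => i β ⊓ i' β, hi.inf hi', ?_, ?_⟩
    · intro β
      refine ⟨?_, le_inf (h1 β).2 (h1' β).2⟩
      rw [Finsupp.sup_apply]
      rcases le_total (s β) (s' β) with h | h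
      · rw [sup_eq_right.2 h]
        exact (h1' β).1
      · rw [sup_eq_left.2 h]
        exact (h1 β).1
    · intro ζ hζ
      constructor
      · refine h2 fun β => ⟨?_, (hζ β).2.trans inf_le_left⟩
        refine le_trans ?_ (hζ β).1
        exact_mod_cast (le_sup_left : s β ≤ s β ⊔ s' β)
      · refine h2' fun β => ⟨?_, (hζ β).2.trans inf_le_right⟩
        refine le_trans ?_ (hζ β).1
        exact_mod_cast (le_sup_right : s' β ≤ s β ⊔ s' β)
  isOpen_sUnion := by
    intro 𝓖 h𝓖 ξ hξ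
    obtain ⟨G, hG, hξG⟩ := hξ
    obtain ⟨s, i, hi, h1, h2⟩ := h𝓖 G hG ξ hξG
    exact ⟨s, i, hi, h1, h2.trans (Set.subset_sUnion_of_mem hG)⟩

lemma isOpen_iff {G : Set Pt} :
    IsOpen G ↔ ∀ ξ ∈ G, ∃ s i, Good i ∧ ξ ∈ Bas s i ∧ Bas s i ⊆ G := Iff.rfl

lemma isOpen_Bas (s : Pt →₀ ℕ) {i : Pt → ℕ∞} (hi : Good i) : IsOpen (Bas s i) :=
  fun _ hξ => ⟨s, i, hi, hξ, subset_rfl⟩

/-- The sets `{ξ : t ξ α > n}`. -/
def V (n : ℕ) (α : Pt) : Set Pt := {ξ | (n : ℕ∞) < t ξ α}

lemma isOpen_V (n : ℕ) (α : Pt) : IsOpen (V n α) := by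
  classical
  rw [isOpen_iff]
  intro ξ hξ
  refine ⟨Finsupp.single α (n + 1), fun _ => ⊤, Good.top, ?_, ?_⟩
  · intro β
    refine ⟨?_, le_top⟩
    by_cases h : β = α
    · subst h
      rw [Finsupp.single_eq_same]
      push_cast
      exact Order.add_one_le_of_lt hξ
    · rw [Finsupp.single_eq_of_ne h]
      simp
  · intro ζ hζ
    have h1 := (hζ α).1
    rw [Finsupp.single_eq_same] at h1
    refine lt_of_lt_of_le ?_ h1
    exact_mod_cast Nat.lt_succ_self n

lemma isClosed_V (n : ℕ) (α : Pt) : IsClosed (V n α) := by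
  classical
  rw [← isOpen_compl_iff]
  have h1 : (V n α)ᶜ = Bas 0 fun β => if β = α then (n : ℕ∞) else ⊤ := by
    ext ξ
    constructor
    · intro h β
      refine ⟨by simp, ?_⟩
      by_cases hβ : β = α
      · subst hβ
        simpa [V] using h
      · simp [hβ]
    · intro h
      have := (h α).2
      simpa [V] using this
  rw [h1]
  refine isOpen_Bas _ ?_
  intro m
  refine (Set.finite_singleton α).subset ?_
  intro β hβ
  by_contra hne
  simp [show β ≠ α from hne] at hβ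

lemma isClosed_Bas (s : Pt →₀ ℕ) (i : Pt → ℕ∞) : IsClosed (Bas s i) := by
  rw [← isOpen_compl_iff]
  have h1 : (Bas s i)ᶜ = (⋃ β, {ξ | t ξ β < s β}) ∪ ⋃ β, {ξ | i β < t ξ β} := by
    ext ξ
    simp only [Bas, Set.mem_compl_iff, Set.mem_ofPred_eq, Set.mem_union, Set.mem_iUnion]
    constructor
    · intro h
      push Not at h
      obtain ⟨β, hβ⟩ := h
      by_cases h2 : (s β : ℕ∞) ≤ t ξ β
      · exact Or.inr ⟨β, hβ h2⟩
      · exact Or.inl ⟨β, not_le.1 h2⟩
    · rintro (⟨β, hβ⟩ | ⟨β, hβ⟩) h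
      · exact absurd (h β).1 (not_le.2 hβ)
      · exact absurd (h β).2 (not_le.2 hβ)
  rw [h1]
  refine (isOpen_iUnion fun β => ?_).union (isOpen_iUnion fun β => ?_)
  · rcases Nat.eq_zero_or_pos (s β) with h | h
    · convert isOpen_empty (X := Pt)
      ext ξ
      simp [h]
    · have h2 : {ξ | t ξ β < s β} = (V (s β - 1) β)ᶜ := by
        ext ξ
        simp only [V, Set.mem_ofPred_eq, Set.mem_compl_iff, not_lt]
        constructor
        · intro h3
          have h4 := Order.add_one_le_of_lt h3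
          obtain ⟨k, hk⟩ := ENat.ne_top_iff_exists.1 (ne_top_of_lt h3)
          rw [← hk] at h3 ⊢
          have h5 : k < s β := by exact_mod_cast h3
          have h6 : k ≤ s β - 1 := by omega
          exact_mod_cast h6
        · intro h3
          refine lt_of_le_of_lt h3 ?_
          have h6 : s β - 1 < s β := by omega
          exact_mod_cast h6
      rw [h2]
      exact (isClosed_V _ _).isOpen_compl
  · by_cases h : i β = ⊤
    · convert isOpen_empty (X := Pt)
      ext ξ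
      simp [h]
    · obtain ⟨n, hn⟩ := ENat.ne_top_iff_exists.1 h
      have h2 : {ξ | i β < t ξ β} = V n β := by
        ext ξ
        simp [V, ← hn]
      rw [h2]
      exact isOpen_V _ _

/-- The clopen sets form a base of the topology. -/
lemma clopen_basis (G : Set Pt) (hG : IsOpen G) (ξ : Pt) (hξ : ξ ∈ G) :
    ∃ B : Set Pt, IsClopen B ∧ ξ ∈ B ∧ B ⊆ G := by
  obtain ⟨s, i, hi, h1, h2⟩ := isOpen_iff.1 hG ξ hξ
  exact ⟨Bas s i, ⟨isClosed_Bas s i, isOpen_Bas s hi⟩, h1, h2⟩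

instance : T2Space Pt := by
  refine ⟨fun ξ η hne => ?_⟩
  refine ⟨V (sig η ξ) ξ, (V (sig η ξ) ξ)ᶜ, isOpen_V _ _, (isClosed_V _ _).isOpen_compl, ?_, ?_,
    disjoint_compl_right⟩
  · show _ < t ξ ξ
    rw [t_self]
    exact ENat.natCast_lt_top _
  · show ¬ (_ < t η ξ)
    rw [t_of_ne hne]
    exact lt_irrefl _

/-- There is a point outside a given countable set with a given `sig`. -/
lemma exists_point (s : Pt →₀ ℕ) {C : Set Pt} (hC : C.Countable) : ∃ ξ, sig ξ = s ∧ ξ ∉ C := by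
  by_contra hcon
  push Not at hcon
  exact sig_spec s (hC.mono fun ξ hξ => hcon ξ hξ)

lemma not_weaklyMenger : ¬ WeaklyMenger Pt := by
  intro h
  obtain ⟨W, hW, hd⟩ := h (fun n => Set.range (V n)) (by
    intro n
    refine ⟨?_, ?_⟩
    · rintro _ ⟨α, rfl⟩
      exact isOpen_V n α
    · rw [Set.eq_univ_iff_forall]
      intro ξ
      refine ⟨V n ξ, ⟨ξ, rfl⟩, ?_⟩
      show _ < t ξ ξ
      rw [t_self]
      exact ENat.natCast_lt_top _)
  have h1 : ∀ n, ∃ F : Set Pt, F.Finite ∧ W n ⊆ V n '' F := by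
    intro n
    have h2 : ∀ G : Set Pt, G ∈ W n → ∃ α, V n α = G := fun G hG => (hW n).1 hG
    choose! g hg using h2
    exact ⟨g '' W n, (hW n).2.image g, fun G hG => ⟨g G, ⟨G, hG, rfl⟩, hg G hG⟩⟩
  choose F hF hWF using h1
  classical
  set i : Pt → ℕ∞ := fun β => ⨅ (n : ℕ) (_ : β ∈ F n), (n : ℕ∞) with hi
  have hgood : Good i := by
    intro m
    refine ((Set.finite_le_nat m).biUnion fun n _ => hF n).subset ?_
    intro β hβ
    by_contra hcon
    have h3 : ((m + 1 : ℕ) : ℕ∞) ≤ i β := by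
      rw [hi]
      refine le_iInf fun n => le_iInf fun hn => ?_
      have h4 : ¬ n ≤ m := fun hle => hcon (Set.mem_biUnion (show n ∈ {k | k ≤ m} from hle) hn)
      have h5 : m + 1 ≤ n := by omega
      exact_mod_cast h5
    have h6 : ((m + 1 : ℕ) : ℕ∞) ≤ (m : ℕ∞) := h3.trans hβ
    have h7 : m + 1 ≤ m := by exact_mod_cast h6
    omega
  obtain ⟨ξ, hξ, hξ2⟩ := exists_point 0 hgood.countable
  have hξ3 : i ξ = ⊤ := by
    by_contra hne
    exact hξ2 hne
  have hne : (Bas 0 i).Nonempty := by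
    refine ⟨ξ, fun β => ⟨by simp, ?_⟩⟩
    by_cases hβ : β = ξ
    · subst hβ
      rw [hξ3]
      exact le_top
    · rw [t_of_ne hβ, hξ]
      simp
  obtain ⟨ζ, hζ, hζ2⟩ := hd.inter_open_nonempty _ (isOpen_Bas 0 hgood) hne
  obtain ⟨n, G, hG, hζG⟩ := Set.mem_iUnion.1 hζ2
  obtain ⟨α, hα, rfl⟩ := hWF n hG
  have h8 : i α ≤ n := by
    rw [hi]
    exact iInf₂_le n hα
  have h9 : (n : ℕ∞) < t ζ α := hζG
  exact absurd (h9.trans_le ((hζ α).2.trans h8)) (lt_irrefl _)

/-- Closing off. -/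
lemma exists_closed (Q : Pt → Set Pt) (hQ : ∀ x, (Q x).Countable) (I : (Pt →₀ ℕ) → Set Pt)
    (hI : ∀ s, (I s).Countable) :
    ∃ C : Set Pt, C.Countable ∧ (∀ x ∈ C, Q x ⊆ C) ∧
      ∀ s : Pt →₀ ℕ, (s.support : Set Pt) ⊆ C → I s ⊆ C := by
  classical
  set step : Set Pt → Set Pt := fun C =>
    (C ∪ ⋃ x ∈ C, Q x) ∪ ⋃ s ∈ {s : Pt →₀ ℕ | (s.support : Set Pt) ⊆ C}, I s with hstep
  have hcount : ∀ C : Set Pt, C.Countable → (step C).Countable := by
    intro C hC
    refine (hC.union (hC.biUnion fun x _ => hQ x)).union ?_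
    refine Set.Countable.biUnion ?_ fun s _ => hI s
    have hc : Countable C := hC.to_subtype
    have h1 : (Set.range fun f : ({x // x ∈ C} →₀ ℕ) => f.extendDomain).Countable :=
      Set.countable_range _
    refine h1.mono ?_
    intro s hs
    exact ⟨s.subtypeDomain _, Finsupp.extendDomain_subtypeDomain s fun a ha => hs ha⟩
  set C : ℕ → Set Pt := fun n => step^[n] ∅ with hCdef
  have hCs : ∀ n, C (n + 1) = step (C n) := fun n => Function.iterate_succ_apply' step n ∅
  have hCc : ∀ n, (C n).Countable := by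
    intro n
    induction n with
    | zero => exact Set.countable_empty
    | succ n ih =>
      rw [hCs]
      exact hcount _ ih
  have hmono : Monotone C := by
    refine monotone_nat_of_le_succ fun n => ?_
    rw [hCs]
    exact fun x hx => Or.inl (Or.inl hx)
  refine ⟨⋃ n, C n, Set.countable_iUnion hCc, ?_, ?_⟩
  · intro x hx y hy
    obtain ⟨n, hn⟩ := Set.mem_iUnion.1 hx
    refine Set.mem_iUnion.2 ⟨n + 1, ?_⟩
    rw [hCs]
    exact Or.inl (Or.inr (Set.mem_biUnion hn hy))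
  · intro s hs y hy
    have h1 : ∀ x : Pt, ∃ n, x ∈ s.support → x ∈ C n := by
      intro x
      by_cases hx : x ∈ s.support
      · obtain ⟨n, hn⟩ := Set.mem_iUnion.1 (hs hx)
        exact ⟨n, fun _ => hn⟩
      · exact ⟨0, fun h => absurd h hx⟩
    choose m hm using h1
    refine Set.mem_iUnion.2 ⟨s.support.sup m + 1, ?_⟩
    rw [hCs]
    refine Or.inr (Set.mem_biUnion (show (s.support : Set Pt) ⊆ _ from ?_) hy)
    intro x hx
    exact hmono (Finset.le_sup (f := m) hx) (hm x hx)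

lemma weaklyLindelof : WeaklyLindelof Pt := by
  intro U hU
  have h1 : ∀ ξ : Pt, ∃ G ∈ U, ∃ s i, Good i ∧ ξ ∈ Bas s i ∧ Bas s i ⊆ G := by
    intro ξ
    have : ξ ∈ ⋃₀ U := by
      rw [hU.2]
      trivial
    obtain ⟨G, hG, hξG⟩ := this
    exact ⟨G, hG, isOpen_iff.1 (hU.1 G hG) ξ hξG⟩
  choose G hG s i hi hmem hsub using h1
  -- infinitely many indices with the same `sig` and the same value at the index
  have h2 : ∀ r : Pt →₀ ℕ, ∃ (n : ℕ) (J : Set Pt), J.Countable ∧ J.Infinite ∧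
      ∀ ξ ∈ J, sig ξ = r ∧ s ξ ξ = n := by
    intro r
    have h3 : ∃ n : ℕ, {ξ | sig ξ = r ∧ s ξ ξ = n}.Infinite := by
      by_contra hcon
      push Not at hcon
      refine sig_spec r ((Set.countable_iUnion fun n => (hcon n).countable).mono ?_)
      intro ξ hξ
      exact Set.mem_iUnion.2 ⟨s ξ ξ, hξ, rfl⟩
    obtain ⟨n, hn⟩ := h3
    refine ⟨n, Set.range fun k => (hn.natEmbedding _ k : Pt), Set.countable_range _, ?_, ?_⟩
    · exact Set.infinite_range_of_injective
        (Subtype.val_injective.comp (hn.natEmbedding _).injective)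
    · rintro _ ⟨k, rfl⟩
      exact (hn.natEmbedding _ k).2
  choose n J hJc hJi hJ using h2
  obtain ⟨C, hC, hCQ, hCI⟩ := exists_closed (fun ξ => {β | i ξ β ≠ ⊤})
    (fun ξ => (hi ξ).countable) J hJc
  refine ⟨G '' C, ?_, hC.image _, ?_⟩
  · rintro _ ⟨ξ, _, rfl⟩
    exact hG ξ
  rw [dense_iff_inter_open]
  intro O hO hne
  obtain ⟨η, hη⟩ := hne
  obtain ⟨s', i', hi', hη', hsub'⟩ := isOpen_iff.1 hO η hη
  classical
  set r : Pt →₀ ℕ := s'.filter (· ∈ C) with hr
  have hrC : (r.support : Set Pt) ⊆ C := by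
    intro x hx
    rw [hr, Finsupp.support_filter] at hx
    exact (Finset.mem_filter.1 hx).2
  obtain ⟨ξ, hξJ, hξ2⟩ := ((hJi r).sdiff (hi' (n r))).nonempty
  obtain ⟨hξσ, hξn⟩ := hJ r ξ hξJ
  have hξC : ξ ∈ C := hCI r hrC hξJ
  have hξ3 : (n r : ℕ∞) ≤ i' ξ := by
    by_contra hcon
    exact hξ2 (not_le.1 hcon).le
  obtain ⟨ζ, hζσ, hζ2⟩ := exists_point (s' ⊔ s ξ) ((hi ξ).countable.union hi'.countable)
  have hζi : i ξ ζ = ⊤ := by
    by_contra hcon
    exact hζ2 (Or.inl hcon)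
  have hζi' : i' ζ = ⊤ := by
    by_contra hcon
    exact hζ2 (Or.inr hcon)
  have htζ : ∀ β, β ≠ ζ → t ζ β = ((s' β ⊔ s ξ β : ℕ) : ℕ∞) := by
    intro β hβ
    rw [t_of_ne hβ, hζσ, Finsupp.sup_apply]
  have hle1 : ∀ β, (s' β : ℕ∞) ≤ t ζ β := by
    intro β
    by_cases hβ : β = ζ
    · rw [hβ, t_self]
      exact le_top
    · rw [htζ β hβ]
      exact_mod_cast (le_sup_left : s' β ≤ s' β ⊔ s ξ β)
  have hle2 : ∀ β, (s ξ β : ℕ∞) ≤ t ζ β := by
    intro β
    by_cases hβ : β = ζ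
    · rw [hβ, t_self]
      exact le_top
    · rw [htζ β hβ]
      exact_mod_cast (le_sup_right : s ξ β ≤ s' β ⊔ s ξ β)
  have hmax : ∀ (β : Pt) (c : ℕ∞), (s' β : ℕ∞) ≤ c → (s ξ β : ℕ∞) ≤ c →
      ((s' β ⊔ s ξ β : ℕ) : ℕ∞) ≤ c := by
    intro β c h3 h4
    rcases le_total (s' β) (s ξ β) with h | h
    · rw [sup_eq_right.2 h]
      exact h4
    · rw [sup_eq_left.2 h]
      exact h3
  have hle3 : ∀ β, t ζ β ≤ i' β := by
    intro β
    by_cases hβ : β = ζ
    · rw [hβ, hζi']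
      exact le_top
    · rw [htζ β hβ]
      have h3 : (s' β : ℕ∞) ≤ i' β := (hη' β).1.trans (hη' β).2
      refine hmax β _ h3 ?_
      by_cases hβξ : β = ξ
      · rw [hβξ, hξn]
        exact hξ3
      · have h4 := (hmem ξ β).1
        rw [t_of_ne hβξ, hξσ] at h4
        refine h4.trans (le_trans ?_ h3)
        have h5 : r β ≤ s' β := by
          rw [hr, Finsupp.filter_apply]
          split_ifs
          · exact le_rfl
          · exact Nat.zero_le _
        exact_mod_cast h5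
  have hle4 : ∀ β, t ζ β ≤ i ξ β := by
    intro β
    by_cases hβ : β = ζ
    · rw [hβ, hζi]
      exact le_top
    · rw [htζ β hβ]
      refine hmax β _ ?_ ((hmem ξ β).1.trans (hmem ξ β).2)
      by_cases hβC : β ∈ C
      · by_cases hβξ : β = ξ
        · have h3 := (hmem ξ β).2
          rw [hβξ, t_self] at h3
          rw [hβξ, top_le_iff.1 h3]
          exact le_top
        · have h3 := (hmem ξ β).2
          rw [t_of_ne hβξ, hξσ, hr, Finsupp.filter_apply, if_pos hβC] at h3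
          exact h3
      · have h3 : i ξ β = ⊤ := by
          by_contra hcon
          exact hβC (hCQ ξ hξC hcon)
        rw [h3]
        exact le_top
  exact ⟨ζ, hsub' fun β => ⟨hle1 β, hle3 β⟩,
    ⟨G ξ, ⟨ξ, hξC, rfl⟩, hsub ξ fun β => ⟨hle2 β, hle4 β⟩⟩⟩

lemma iff_of {P : ∀ (X : Type) [TopologicalSpace X], Prop}
    (h1 : ∀ (X : Type) [TopologicalSpace X], WeaklyScheepersK X → P X)
    (h2 : ∀ (X : Type) [TopologicalSpace X], P X → WeaklyMenger X) :
    (∀ (X : Type) [TopologicalSpace X], #X < dominatingNumber → WeaklyLindelof X → P X) ↔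
      dominatingNumber = ℵ₁ := by
  constructor
  · intro h
    by_contra hne
    have hlt : ℵ₁ < dominatingNumber :=
      lt_of_le_of_ne aleph_one_le_dominatingNumber (Ne.symm hne)
    exact not_weaklyMenger (h2 Pt (h Pt (by rw [mk_Pt]; exact hlt) weaklyLindelof))
  · intro h X _ hX _
    rw [h] at hX
    have hc : Countable X := by
      rw [← Cardinal.mk_le_aleph0_iff, ← Order.lt_succ_iff, Cardinal.succ_aleph0]
      exact hX
    exact h1 X (weaklyScheepersK_of_countable X)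

/-- **Answer to Q1.**  There is, in ZFC, a zero-dimensional Hausdorff weakly Lindelof space of
cardinality `ℵ₁` which is not weakly Menger.  Consequently each of the statements (a), (b), (c)
of the problem is equivalent to `𝔡 = ℵ₁`. -/
theorem result :
    (∃ (X : Type) (_ : TopologicalSpace X), #X = ℵ₁ ∧ T2Space X ∧
      (∀ G : Set X, IsOpen G → ∀ x ∈ G, ∃ B : Set X, IsClopen B ∧ x ∈ B ∧ B ⊆ G) ∧
      WeaklyLindelof X ∧ ¬ WeaklyMenger X) ∧
    ((∀ (X : Type) [TopologicalSpace X],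
        #X < dominatingNumber → WeaklyLindelof X → WeaklyScheepersK X) ↔
      dominatingNumber = ℵ₁) ∧
    ((∀ (X : Type) [TopologicalSpace X],
        #X < dominatingNumber → WeaklyLindelof X → WeaklyScheepers X) ↔
      dominatingNumber = ℵ₁) ∧
    ((∀ (X : Type) [TopologicalSpace X],
        #X < dominatingNumber → WeaklyLindelof X → WeaklyMenger X) ↔
      dominatingNumber = ℵ₁) := by
  refine ⟨⟨Pt, topPt, mk_Pt, inferInstance, clopen_basis, weaklyLindelof, not_weaklyMenger⟩,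
    ?_, ?_, ?_⟩
  · exact iff_of (P := fun X _ => WeaklyScheepersK X) (fun _ _ h => h)
      (fun _ _ h => h.weaklyScheepers.weaklyMenger)
  · exact iff_of (P := fun X _ => WeaklyScheepers X) (fun _ _ h => h.weaklyScheepers)
      (fun _ _ h => h.weaklyMenger)
  · exact iff_of (P := fun X _ => WeaklyMenger X) (fun _ _ h => h.weaklyScheepers.weaklyMenger)
      (fun _ _ h => h)

end Pool.Agent.Results.MP_ed8104_gt.IffDominatingAlephOne
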